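import Mathlib
import Pool.Agent.W497.Mld.Main

/-!
# MP_bf30c2_ag, Q1: a minimal log discrepancy that is computed by no divisorial contraction

We answer Q1 in the negative. Let `X` be the affine space `𝔸^24` with coordinates `z, x, y, w_0, w_1`
(the variables `ia`), `y'_1, y'_2, y'_3` (`ip`), `t_1, t_2, t_3` (`it`) and `y_ij` (`iy`), where
`j ≤ 3, 5, 5` for `i = 1, 2, 3`, and `B = (3/4) (D_1 + D_2 + D_3)`, where `D_i` is the hypersurface
`g_i + y'_i ∏_j y_ij = 0` and `g_i` are the forms `y z^2 - x^3`, `w_1 z^4 - w_0 (y^3 z - x^2 y^2)` and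
`w_1 z^2 (y z + x^2) - w_0 (y^4 - x y^3)` of degrees `3, 5, 5`. The pair `(X, B)` is log canonical,
its minimal log discrepancy at the origin is `14`, and it is computed by exactly one divisor `E`: the
exceptional divisor of the blow-up of a codimension two subvariety of the exceptional divisor of the
blow-up of the origin. That subvariety is a cone over a curve of non-torsion points on the smooth
locus of a cuspidal plane cubic, and the valuation algebra of `E` is not finitely generated.

The definitions are in `Pool.Agent.W497.Mld.Defs`, `Pool.Agent.H436R3.KT.Defs` and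
`Pool.Agent.H436R3.Fol.Defs`.
-/

set_option autoImplicit false
set_option maxSynthPendingDepth 4

namespace Pool.Agent.Results.MP_bf30c2_ag.MldNoContraction

open Pool.Agent.H436R3.Fol Pool.Agent.H436R3.KT Pool.Agent.W497.Mld

/-- There is a log canonical pair `(X ∋ P, B)`, where `X` is the affine space of dimension `24` (in
particular, normal and klt) and all coefficients of `B` are `3/4`, with minimal log discrepancy `14`
at `P`, such that no prime divisor over `X ∋ P` that computes the minimal log discrepancy is the
exceptional divisor of a divisorial contraction to `X`, nor to any principal open neighbourhood of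
`P` in `X`. In fact there is exactly one divisor that computes the minimal log discrepancy. -/
theorem result : ∃ (K : Type) (_ : Field K) (_ : Algebra ℂ K) (X : AffVar K) (P : Pt X)
    (B : EffDiv X) (e : LocEq B P),
    IsAffineSpace X 24 ∧ IsNormal X ∧ (∀ Q : Pt X, IsKltPt Q) ∧ (∀ Q : Pt X, IsLcAt B Q) ∧
    CoeffIn B {3 / 4} ∧ IsMld e 14 ∧
    (∃ v₀ : DVal K, ∀ v, IsOverGerm P v → (IsLogDisc e v 14 ↔ SameDiv v v₀)) ∧
    ∀ v, IsOverGerm P v → IsLogDisc e v 14 →
      ¬ IsExtractable X v ∧ ∀ U, IsNbhd P U → ¬ IsExtractable U v := by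
  let K := FractionRing (MvPolynomial Ix ℂ)
  let e : Fin 24 ≃ Ix := (Fintype.equivFinOfCardEq card_Ix).symm
  refine ⟨K, inferInstance, inferInstance, affVar K e, orig e, Bd e, eqB e (orig e),
    isAffineSpace e, affVar_normal e, klt_all e, lc_all e, coeff_in e, mld_eq e,
    ⟨vv0 K, fun v hv => ⟨fun h => mld_unique e hv h, fun h => ?_⟩⟩, fun v hv h => ?_⟩
  · exact disc_of_same e h
  · have h1 := mld_unique e hv h
    exact ⟨not_extractable' e h1, fun U hU => not_extractable e h1 hU⟩

end Pool.Agent.Results.MP_bf30c2_ag.MldNoContraction
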